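import Mathlib
import Pool.Agent.ECF.All

/-!
# MP_090e3f_an: entire curves and Fatou-Bieberbach maps into `C* x C*`
-/

set_option autoImplicit false

open Complex Polynomial Pool.Agent.ECF Pool.Agent.Helper86.FB

namespace Pool.Agent.Results.MP_090e3f_an.EntireCurves

private theorem main {F : ℂ × ℂ → ℂ × ℂ} (hinj : Function.Injective F)
    {a b : ℂ × ℂ → ℂ} (ha : Differentiable ℂ a) (hb : Differentiable ℂ b)
    (hab : ∀ p, F p = (exp (a p), exp (b p))) {α β : ℂ} (hαβ : (α, β) ≠ (0, 0))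
    {ψ : ℂ → ℂ × ℂ} (hψ : Differentiable ℂ ψ) (hnc : ∃ s s', ψ s ≠ ψ s') (K : ℝ) (N : ℕ) :
    ∃ s : ℂ, K * (1 + ‖s‖ ^ N) < (α * a (ψ s) + β * b (ψ s)).re := by
  by_contra hcon
  push Not at hcon
  have h : ¬ (α = 0 ∧ β = 0) := by
    rintro ⟨rfl, rfl⟩; exact hαβ rfl
  have hinj' : Function.Injective fun p => (exp (a p), exp (b p)) := by
    have : (fun p => (exp (a p), exp (b p))) = F := funext fun p => (hab p).symm
    rw [this]; exact hinj
  have hd : Differentiable ℂ fun s => α * a (ψ s) + β * b (ψ s) :=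
    ((ha.comp hψ).const_mul α).add ((hb.comp hψ).const_mul β)
  obtain ⟨P, -, hP⟩ := thm_POL _ K N hd hcon
  exact full a b ψ P α β h ha hb hinj' hψ hnc hP

private theorem logs {F : ℂ × ℂ → ℂ × ℂ} (hF : Differentiable ℂ F)
    (h0 : ∀ p, (F p).1 ≠ 0 ∧ (F p).2 ≠ 0) :
    ∃ a b : ℂ × ℂ → ℂ, Differentiable ℂ a ∧ Differentiable ℂ b ∧
      ∀ p, F p = (exp (a p), exp (b p)) := by
  have h1 : Differentiable ℂ fun p => (F p).1 := differentiable_fst.comp hF
  have h2 : Differentiable ℂ fun p => (F p).2 := differentiable_snd.comp hF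
  obtain ⟨a, ha, hae⟩ := exists_log h1 (fun p => (h0 p).1)
  obtain ⟨b, hb, hbe⟩ := exists_log h2 (fun p => (h0 p).2)
  exact ⟨a, b, ha, hb, fun p => Prod.ext (hae p).symm (hbe p).symm⟩

/-- Let `F = (f, g) : ℂ² → ℂ²` be holomorphic and injective with zero-free components. Then
`F = (e^a, e^b)` with entire `a, b : ℂ² → ℂ`, and for every nonconstant entire curve `ψ : ℂ → ℂ²`
and all complex `(α, β) ≠ (0, 0)` the function `f^α g^β = e^(α a + β b)` has infinite order along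
`ψ`: the real part of `α a + β b` is not bounded above by `K (1 + |s| ^ N)` along `ψ`. -/
theorem result (F : ℂ × ℂ → ℂ × ℂ) (hF : Differentiable ℂ F) (hinj : Function.Injective F)
    (h0 : ∀ p, (F p).1 ≠ 0 ∧ (F p).2 ≠ 0) :
    ∃ a b : ℂ × ℂ → ℂ, Differentiable ℂ a ∧ Differentiable ℂ b ∧
      (∀ p, F p = (exp (a p), exp (b p))) ∧
      ∀ α β : ℂ, (α, β) ≠ (0, 0) → ∀ ψ : ℂ → ℂ × ℂ, Differentiable ℂ ψ →
        (∃ s s', ψ s ≠ ψ s') → ∀ (K : ℝ) (N : ℕ), ∃ s : ℂ,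
          K * (1 + ‖s‖ ^ N) < (α * a (ψ s) + β * b (ψ s)).re := by
  obtain ⟨a, b, ha, hb, hab⟩ := logs hF h0
  exact ⟨a, b, ha, hb, hab, fun α β hαβ ψ hψ hnc K N => main hinj ha hb hab hαβ hψ hnc K N⟩

end Pool.Agent.Results.MP_090e3f_an.EntireCurves
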