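import Mathlib

set_option autoImplicit false

open Complex

namespace Pool.Agent.Results.MP_090e3f_an.LargeCylinders

/-- Jacobian bracket of two linear forms on `ℂ²`. -/
private noncomputable def br (A B : ℂ × ℂ →L[ℂ] ℂ) : ℂ :=
  A (1, 0) * B (0, 1) - A (0, 1) * B (1, 0)

/-- first linear form -/
private noncomputable def la (δ : ℂ) : ℂ × ℂ →L[ℂ] ℂ :=
  (I / δ) • ContinuousLinearMap.fst ℂ ℂ ℂ + (δ / 2) • ContinuousLinearMap.snd ℂ ℂ ℂ

/-- second linear form -/
private noncomputable def lb (δ : ℂ) : ℂ × ℂ →L[ℂ] ℂ :=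
  (-1 / δ) • ContinuousLinearMap.fst ℂ ℂ ℂ + (-(I * δ) / 2) • ContinuousLinearMap.snd ℂ ℂ ℂ

private lemma la_apply (δ : ℂ) (p : ℂ × ℂ) : la δ p = (I / δ) * p.1 + (δ / 2) * p.2 := by
  simp [la]

private lemma lb_apply (δ : ℂ) (p : ℂ × ℂ) :
    lb δ p = (-1 / δ) * p.1 + (-(I * δ) / 2) * p.2 := by
  simp [lb]

/-- For every radius `R` there is an entire map `F : ℂ² → ℂ²` that omits both coordinate axes,
is injective on the cylinder `{|y| < R}`, is tangent to the identity at the origin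
(`F(0) = (1,1)`, `dF(0) = id`) and pulls the form `dz ∧ dw / (zw)` back to `dx ∧ dy`. -/
theorem result (R : ℝ) (hR : 0 < R) :
    ∃ F : ℂ × ℂ → ℂ × ℂ, Differentiable ℂ F ∧
      (∀ p, (F p).1 ≠ 0 ∧ (F p).2 ≠ 0) ∧
      Set.InjOn F {p | ‖p.2‖ < R} ∧
      F (0, 0) = (1, 1) ∧
      HasFDerivAt F (ContinuousLinearMap.id ℂ (ℂ × ℂ)) (0, 0) ∧
      ∀ p, (fderiv ℂ F p (1, 0)).1 * (fderiv ℂ F p (0, 1)).2
          - (fderiv ℂ F p (0, 1)).1 * (fderiv ℂ F p (1, 0)).2 = (F p).1 * (F p).2 := by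
  classical
  set δ : ℂ := ((Real.pi / R : ℝ) : ℂ) with hδ
  have hδr : (0 : ℝ) < Real.pi / R := div_pos Real.pi_pos hR
  have hδ0 : δ ≠ 0 := by
    rw [hδ]; exact_mod_cast hδr.ne'
  have hδn : ‖δ‖ = Real.pi / R := by
    rw [hδ, Complex.norm_real, Real.norm_eq_abs, abs_of_pos hδr]
  -- the three shears, in logarithmic form
  set s : ℂ := I - δ with hs
  set r : ℂ := 1 / δ with hr
  set s' : ℂ := δ * (-(I * δ) / 2 - 1) with hs'
  set A1 : ℂ × ℂ → ℂ := fun p => la δ p + s * (exp (lb δ p) - 1) with hA1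
  set B2 : ℂ × ℂ → ℂ := fun p => lb δ p + r * (exp (A1 p) - 1) with hB2
  set A3 : ℂ × ℂ → ℂ := fun p => A1 p + s' * (exp (B2 p) - 1) with hA3
  -- derivatives
  have dA1 : ∀ p, HasFDerivAt A1 (la δ + (s * exp (lb δ p)) • lb δ) p := by
    intro p
    have h1 : HasFDerivAt (fun q => la δ q) (la δ) p := (la δ).hasFDerivAt
    have h2 : HasFDerivAt (fun q => lb δ q) (lb δ) p := (lb δ).hasFDerivAt
    have h3 := h1.add (((h2.cexp).sub_const (1 : ℂ)).const_mul s)
    refine h3.congr_fderiv ?_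
    rw [smul_smul]
  have dB2 : ∀ p, HasFDerivAt B2
      (lb δ + (r * exp (A1 p)) • (la δ + (s * exp (lb δ p)) • lb δ)) p := by
    intro p
    have h2 : HasFDerivAt (fun q => lb δ q) (lb δ) p := (lb δ).hasFDerivAt
    have h3 := h2.add ((((dA1 p).cexp).sub_const (1 : ℂ)).const_mul r)
    refine h3.congr_fderiv ?_
    rw [smul_smul]
  have dA3 : ∀ p, HasFDerivAt A3
      ((la δ + (s * exp (lb δ p)) • lb δ) + (s' * exp (B2 p)) •
        (lb δ + (r * exp (A1 p)) • (la δ + (s * exp (lb δ p)) • lb δ))) p := by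
    intro p
    have h3 := (dA1 p).add ((((dB2 p).cexp).sub_const (1 : ℂ)).const_mul s')
    refine h3.congr_fderiv ?_
    rw [smul_smul]
  have hbr0 : ∀ c1 c2 c3 : ℂ,
      br ((la δ + c1 • lb δ) + c3 • (lb δ + c2 • (la δ + c1 • lb δ)))
        (lb δ + c2 • (la δ + c1 • lb δ)) = 1 := by
    intro c1 c2 c3
    simp only [br, add_apply, smul_apply, la_apply,
      lb_apply, smul_eq_mul]
    field_simp
    ring_nf
    simp only [I_sq]
    ring
  refine ⟨fun p => (exp (A3 p), exp (B2 p)), ?_, ?_, ?_, ?_, ?_, ?_⟩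
  · intro p
    exact ((dA3 p).cexp.prodMk (dB2 p).cexp).differentiableAt
  · intro p
    exact ⟨exp_ne_zero _, exp_ne_zero _⟩
  · intro p hp q hq hpq
    simp only [Set.mem_ofPred_eq] at hp hq
    have e1 : exp (A3 p) = exp (A3 q) := (Prod.ext_iff.1 hpq).1
    have e2 : exp (B2 p) = exp (B2 q) := (Prod.ext_iff.1 hpq).2
    have e3 : exp (A1 p) = exp (A1 q) := by
      have h : ∀ x, exp (A1 x) = exp (A3 x) * exp (-(s' * (exp (B2 x) - 1))) := by
        intro x
        rw [← exp_add]; congr 1; simp only [hA3]; ring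
      rw [h p, h q, e1, e2]
    have e4 : exp (lb δ p) = exp (lb δ q) := by
      have h : ∀ x, exp (lb δ x) = exp (B2 x) * exp (-(r * (exp (A1 x) - 1))) := by
        intro x
        rw [← exp_add]; congr 1; simp only [hB2]; ring
      rw [h p, h q, e2, e3]
    have e5 : exp (la δ p) = exp (la δ q) := by
      have h : ∀ x, exp (la δ x) = exp (A1 x) * exp (-(s * (exp (lb δ x) - 1))) := by
        intro x
        rw [← exp_add]; congr 1; simp only [hA1]; ring
      rw [h p, h q, e3, e4]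
    obtain ⟨m, hm⟩ := exp_eq_exp_iff_exists_int.1 e5
    obtain ⟨n, hn⟩ := exp_eq_exp_iff_exists_int.1 e4
    have hlam : ∀ x : ℂ × ℂ, la δ x + I * lb δ x = δ * x.2 := by
      intro x
      rw [la_apply, lb_apply]
      field_simp
      ring_nf
      simp only [I_sq]
      ring
    have hdiff : δ * (p.2 - q.2) = 2 * Real.pi * (-(n : ℂ) + (m : ℂ) * I) := by
      have h1 := hlam p
      have h2 := hlam q
      rw [hm, hn] at h1
      have : δ * (p.2 - q.2) = (m : ℂ) * (2 * Real.pi * I) + I * ((n : ℂ) * (2 * Real.pi * I)) := by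
        rw [mul_sub, ← h1, ← h2]; ring
      rw [this]
      have hI : I * I = -1 := I_mul_I
      linear_combination (2 * (n : ℂ) * Real.pi) * hI
    have hnorm : ‖δ * (p.2 - q.2)‖ < 2 * Real.pi := by
      rw [norm_mul, hδn]
      have h1 : ‖p.2 - q.2‖ < 2 * R := by
        calc ‖p.2 - q.2‖ ≤ ‖p.2‖ + ‖q.2‖ := norm_sub_le _ _
          _ < 2 * R := by linarith
      calc Real.pi / R * ‖p.2 - q.2‖ < Real.pi / R * (2 * R) := by
            exact mul_lt_mul_of_pos_left h1 hδr
        _ = 2 * Real.pi := by field_simp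
    rw [hdiff, norm_mul] at hnorm
    have h2pi : ‖(2 * Real.pi : ℂ)‖ = 2 * Real.pi := by
      rw [norm_mul, Complex.norm_real, Real.norm_eq_abs, abs_of_pos Real.pi_pos]
      simp
    rw [h2pi] at hnorm
    have hlt1 : ‖(-(n : ℂ) + (m : ℂ) * I)‖ < 1 := by
      have h2 : (0 : ℝ) < 2 * Real.pi := by positivity
      by_contra hcon
      push Not at hcon
      have := mul_le_mul_of_nonneg_left hcon h2.le
      linarith
    have hre : |(-(n : ℂ) + (m : ℂ) * I).re| < 1 := lt_of_le_of_lt (Complex.abs_re_le_norm _) hlt1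
    have him : |(-(n : ℂ) + (m : ℂ) * I).im| < 1 := lt_of_le_of_lt (Complex.abs_im_le_norm _) hlt1
    have hn0 : n = 0 := by
      simp at hre
      have : |n| < 1 := by exact_mod_cast hre
      exact Int.abs_lt_one_iff.1 this
    have hm0 : m = 0 := by
      simp at him
      have : |m| < 1 := by exact_mod_cast him
      exact Int.abs_lt_one_iff.1 this
    subst hn0 hm0
    have hy : p.2 = q.2 := by
      have : δ * (p.2 - q.2) = 0 := by rw [hdiff]; simp
      rcases mul_eq_zero.1 this with h | h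
      · exact absurd h hδ0
      · exact sub_eq_zero.1 h
    have hx : p.1 = q.1 := by
      have h1 : la δ p = la δ q := by simpa using hm
      rw [la_apply, la_apply, hy] at h1
      have h2 : (I / δ) * p.1 = (I / δ) * q.1 := by
        exact add_right_cancel h1
      exact mul_left_cancel₀ (div_ne_zero I_ne_zero hδ0) h2
    exact Prod.ext hx hy
  · simp [hA3, hB2, hA1, la_apply, lb_apply]
  · have hA10 : A1 (0, 0) = 0 := by simp [hA1, la_apply, lb_apply]
    have hB20 : B2 (0, 0) = 0 := by simp [hB2, hA10, lb_apply]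
    have hA30 : A3 (0, 0) = 0 := by simp [hA3, hA10, hB20]
    have h := (dA3 (0, 0)).cexp.prodMk (dB2 (0, 0)).cexp
    refine h.congr_fderiv ?_
    have hlb0 : lb δ (0, 0) = 0 := by simp [lb_apply]
    rw [hA10, hB20, hA30, hlb0]
    ext <;> simp [la_apply, lb_apply, hs, hr, hs'] <;> field_simp <;> ring_nf <;>
      (try simp only [I_sq]) <;> (try ring_nf) <;> (try simp only [I_pow_three]) <;> (try ring)
  · intro p
    have h := ((dA3 p).cexp.prodMk (dB2 p).cexp).fderiv
    rw [h]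
    have hb := hbr0 (s * exp (lb δ p)) (r * exp (A1 p)) (s' * exp (B2 p))
    simp only [br] at hb
    simp only [ContinuousLinearMap.prod_apply, smul_apply, smul_eq_mul]
    linear_combination (exp (A3 p) * exp (B2 p)) * hb

end Pool.Agent.Results.MP_090e3f_an.LargeCylinders
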