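import Pool.Agent.Helper41.FB.RigH

/-!
# MP_090e3f_an: Fatou-Bieberbach maps into `C* x C*` are not limits of volume preserving
# automorphisms of `C* x C*` applied to large embedded affine balls
-/

set_option autoImplicit false

open Filter Topology

namespace Pool.Agent.Results.MP_090e3f_an.NoAffineLimits

open Pool.Agent.Helper41.FB

/-- Let the entire map `F : C^2 → C^2` be the locally uniform limit of the maps
`Ψ_n ∘ ex ∘ A_n`, where `ex (x, y) = (e^x, e^y)`, the `A_n = L_n + b_n` are affine, `ex ∘ A_n` is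
injective on the ball of radius `r_n → ∞` about the origin and `Ψ_n : C* x C* → C^2` is
holomorphic. If, with constants `m > 0` and `C`, for each `n` either `|det L_n| ≥ m` or the
Jacobian `z w det dΨ_n / (Ψ_{n,1} Ψ_{n,2})` of `Ψ_n` with respect to `dz ∧ dw / (z w)` is bounded
by `C`, then `det dF` vanishes identically. -/
theorem result (F : ℂ × ℂ → ℂ × ℂ) (hF : Differentiable ℂ F)
    (Ψ : ℕ → ℂ × ℂ → ℂ × ℂ)
    (hΨ : ∀ n, DifferentiableOn ℂ (Ψ n) {p | p.1 ≠ 0 ∧ p.2 ≠ 0})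
    (L : ℕ → (ℂ × ℂ) →L[ℂ] (ℂ × ℂ)) (b : ℕ → ℂ × ℂ)
    (r : ℕ → ℝ) (hr : Tendsto r atTop atTop)
    (hinj : ∀ n, Set.InjOn (fun p => ex (L n p + b n)) (Metric.ball 0 (r n)))
    (hlim : TendstoLocallyUniformly (fun n p => Ψ n (ex (L n p + b n))) F atTop)
    (m C : ℝ) (hm : 0 < m)
    (h : ∀ n, m ≤ ‖jac (L n)‖ ∨ ∀ z w : ℂ, z ≠ 0 → w ≠ 0 →
      ‖z * w * jac (fderiv ℂ (Ψ n) (z, w))‖ ≤ C * ‖(Ψ n (z, w)).1 * (Ψ n (z, w)).2‖) :
    ∀ p, jac (fderiv ℂ F p) = 0 := by
  intro p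
  by_cases hfr : ∃ᶠ n in atTop, m ≤ ‖jac (L n)‖
  · obtain ⟨f, hf, h1⟩ := extraction_of_frequently_atTop hfr
    have hft : Tendsto f atTop atTop := hf.tendsto_atTop
    obtain ⟨⟨e, he, h2⟩, -⟩ := part12 (Ψ := fun n => Ψ (f n)) (L := fun n => L (f n))
      (b := fun n => b (f n)) (r := fun n => r (f n)) hF (fun n => hΨ (f n)) (hr.comp hft)
      (fun n => hinj (f n)) (tlu_sub hlim hft) hm (Eventually.of_forall h1)
    apply jac_zero he
    rw [← line_deriv hF]
    have : (fun t : ℂ => F (p + t • e)) = fun _ => F p := by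
      ext1 t
      exact h2 p t
    rw [this]
    exact deriv_const _ _
  · rw [not_frequently] at hfr
    obtain ⟨N, hN⟩ := eventually_atTop.1 hfr
    have hft : Tendsto (fun n => n + N) atTop atTop := tendsto_add_atTop_nat N
    exact part3 (Ψ := fun n => Ψ (n + N)) (L := fun n => L (n + N))
      (b := fun n => b (n + N)) (r := fun n => r (n + N)) hF (fun n => hΨ _) (hr.comp hft)
      (fun n => hinj _) (tlu_sub hlim hft)
      (fun n => (h (n + N)).resolve_left (hN _ (Nat.le_add_left _ _))) p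

end Pool.Agent.Results.MP_090e3f_an.NoAffineLimits
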